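import Pool.Agent.H8Z.BTE.Iface

set_option autoImplicit false
set_option linter.unusedSectionVars false
set_option linter.unusedSimpArgs false
set_option linter.unusedVariables false

/-! # One step of the entire transformation -/

namespace Pool.Agent.H354Z.Eat

open Pool.Agent.H8Z.BTE Pool.Agent.H8Z.BTE.Cfg

variable {α E V : Type} [DecidableEq α]

/-- the data of one step -/
structure Dat (C : Cfg α E V) (c : V) (B : E) (σ : Bool) (B' : E) (σ' : Bool) (z : ℤ) : Prop where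
  hc : c ≠ C.c0
  hB : B ∈ C.R
  hB' : B' ∈ C.R
  cB : C.cp B σ = c
  cB' : C.cp B' σ' = c
  eB : (C.dr B σ = 1 ∧ C.st B σ + C.k1 B = C.lo c) ∨ (C.dr B σ = -1 ∧ C.st B σ - C.k2 B = C.lo c)
  eB' : (C.dr B' σ' = 1 ∧ C.st B' σ' + C.k1 B' = C.lo c) ∨
    (C.dr B' σ' = -1 ∧ C.st B' σ' - C.k2 B' = C.lo c)
  hz : z = C.lo c + (C.k2 B' - C.k1 B')
  hlt : C.k1 B' < C.k2 B'
  hW : C.k2 B' - C.k1 B' ≤ C.k2 B - C.k1 B
  ne : B ≠ B'
  only : ∀ β i, C.lo c ≤ i → i < z → C.Cov β c i → β = (B, σ) ∨ β = (B', σ')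

/-- the ends which are moved -/
def T (C : Cfg α E V) (c : V) (B : E) (σ : Bool) (z : ℤ) (e : E) (s : Bool) : Prop :=
  e ∈ C.R ∧ C.cp e s = c ∧ (e, s) ≠ (B, σ) ∧ ∃ k, C.k1 e ≤ k ∧ k ≤ C.k2 e ∧ C.pos e s k < z

/-- the parameter of the carrier at a position -/
def kap (C : Cfg α E V) (B : E) (σ : Bool) (j : ℤ) : ℤ := C.dr B σ * (j - C.st B σ)

/-- the transfer map -/
def bt (C : Cfg α E V) (B : E) (σ : Bool) (j : ℤ) : ℤ := C.pos B (!σ) (kap C B σ j)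

open Classical in
noncomputable def mu (C : Cfg α E V) (c : V) (B : E) (σ : Bool) (z : ℤ) (p : V × ℤ) : V × ℤ :=
  if p.1 = c ∧ p.2 < z then (C.cp B (!σ), bt C B σ p.2) else p

open Classical in
noncomputable def uu {Q : Type} [Group Q] (C : Cfg α E V) (c : V) (B : E) (σ : Bool) (z : ℤ)
    (x : Q) (e : E) (s : Bool) : Q := if T C c B σ z e s then x else 1

open Classical in
noncomputable def up {Q : Type} [Group Q] (c : V) (z : ℤ) (x : Q) (p : V × ℤ) : Q :=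
  if p.1 = c ∧ p.2 < z then x else 1

open Classical in
/-- the new configuration -/
noncomputable def nw (C : Cfg α E V) (c : V) (B : E) (σ : Bool) (z : ℤ) : Cfg α E V where
  cp := fun e s => if T C c B σ z e s then C.cp B (!σ) else C.cp e s
  w := fun e => uu C c B σ z (lv C.w (B, !σ)) e true * C.w e *
    (uu C c B σ z (lv C.w (B, !σ)) e false)⁻¹
  st := fun e s => if T C c B σ z e s then bt C B σ (C.st e s) else C.st e s
  dr := fun e s => if T C c B σ z e s then C.dr B (!σ) * C.dr B σ * C.dr e s else C.dr e s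
  k1 := fun e => if e = B ∧ C.dr B σ = 1 then kap C B σ z else C.k1 e
  k2 := fun e => if e = B ∧ C.dr B σ = -1 then kap C B σ z else C.k2 e
  lo := fun d => if d = c then z else C.lo d
  hi := C.hi
  pt := C.pt
  c0 := C.c0
  R := C.R
  M := mu C c B σ z '' C.M ∪ {(C.cp B (!σ), bt C B σ z)}

variable {C : Cfg α E V} {c : V} {B B' : E} {σ σ' : Bool} {z : ℤ} {V0 : FreeGroup α} {L : ℤ}

lemma cp_T {e : E} {s : Bool} (h : T C c B σ z e s) : (nw C c B σ z).cp e s = C.cp B (!σ) := by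
  simp [nw, h]

lemma cp_nT {e : E} {s : Bool} (h : ¬ T C c B σ z e s) : (nw C c B σ z).cp e s = C.cp e s := by
  simp [nw, h]

lemma pos_T {e : E} {s : Bool} (h : T C c B σ z e s) (k : ℤ) :
    (nw C c B σ z).pos e s k = bt C B σ (C.pos e s k) := by
  simp only [Cfg.pos, nw, h, if_true, bt, kap]
  ring

lemma pos_nT {e : E} {s : Bool} (h : ¬ T C c B σ z e s) (k : ℤ) :
    (nw C c B σ z).pos e s k = C.pos e s k := by
  simp only [Cfg.pos, nw, h, if_false]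

lemma cpos_T {e : E} {s : Bool} (h : T C c B σ z e s) (k : ℤ) :
    (nw C c B σ z).cpos e s k =
      2 * C.st B (!σ) + C.dr B (!σ) * (C.dr B σ * (C.cpos e s k - 2 * C.st B σ)) := by
  simp only [Cfg.cpos, Cfg.pos, nw, h, if_true, bt, kap]
  ring

lemma cpos_nT {e : E} {s : Bool} (h : ¬ T C c B σ z e s) (k : ℤ) :
    (nw C c B σ z).cpos e s k = C.cpos e s k := by
  simp only [Cfg.cpos, nw, h, if_false]

lemma P_T {e : E} {s : Bool} (h : T C c B σ z e s) (k : ℤ) :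
    (nw C c B σ z).P e s k = (C.cp B (!σ), bt C B σ (C.pos e s k)) := by
  unfold Cfg.P
  rw [cp_T h, pos_T h]

lemma P_nT {e : E} {s : Bool} (h : ¬ T C c B σ z e s) (k : ℤ) :
    (nw C c B σ z).P e s k = C.P e s k := by
  unfold Cfg.P
  rw [cp_nT h, pos_nT h]

lemma k1_ne {e : E} (h : e ≠ B) : (nw C c B σ z).k1 e = C.k1 e := by simp [nw, h]

lemma k2_ne {e : E} (h : e ≠ B) : (nw C c B σ z).k2 e = C.k2 e := by simp [nw, h]

lemma uu_T {Q : Type} [Group Q] (x : Q) {e : E} {s : Bool} (h : T C c B σ z e s) :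
    uu C c B σ z x e s = x := by simp [uu, h]

lemma uu_nT {Q : Type} [Group Q] (x : Q) {e : E} {s : Bool} (h : ¬ T C c B σ z e s) :
    uu C c B σ z x e s = 1 := by simp [uu, h]

namespace Dat

lemma az (D : Dat C c B σ B' σ' z) : C.lo c < z := by
  have := D.hz
  have := D.hlt
  omega

lemma posB (D : Dat C c B σ B' σ' z) :
    (C.dr B σ = 1 ∧ C.st B σ + C.k1 B = C.lo c ∧ (∀ k, C.pos B σ k = C.st B σ + k) ∧
      (∀ k, C.cpos B σ k = 2 * C.st B σ + (2 * k + 1)) ∧ ∀ j, kap C B σ j = j - C.st B σ) ∨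
    (C.dr B σ = -1 ∧ C.st B σ - C.k2 B = C.lo c ∧ (∀ k, C.pos B σ k = C.st B σ - k) ∧
      (∀ k, C.cpos B σ k = 2 * C.st B σ - (2 * k + 1)) ∧ ∀ j, kap C B σ j = C.st B σ - j) := by
  rcases D.eB with ⟨h1, h2⟩ | ⟨h1, h2⟩
  · left
    refine ⟨h1, h2, fun k => ?_, fun k => ?_, fun k => ?_⟩
    · simp [Cfg.pos, h1]
    · simp [Cfg.cpos, h1]
    · simp [kap, h1]
  · right
    refine ⟨h1, h2, fun k => ?_, fun k => ?_, fun k => ?_⟩
    · simp only [Cfg.pos, h1]; ring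
    · simp only [Cfg.cpos, h1]; ring
    · simp only [kap, h1]; ring

lemma posB' (D : Dat C c B σ B' σ' z) :
    (C.st B' σ' + C.k1 B' = C.lo c ∧ (∀ k, C.pos B' σ' k = C.st B' σ' + k) ∧
      (∀ k, C.cpos B' σ' k = 2 * C.st B' σ' + (2 * k + 1))) ∨
    (C.st B' σ' - C.k2 B' = C.lo c ∧ (∀ k, C.pos B' σ' k = C.st B' σ' - k) ∧
      (∀ k, C.cpos B' σ' k = 2 * C.st B' σ' - (2 * k + 1))) := by
  rcases D.eB' with ⟨h1, h2⟩ | ⟨h1, h2⟩
  · left
    refine ⟨h2, fun k => ?_, fun k => ?_⟩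
    · simp [Cfg.pos, h1]
    · simp [Cfg.cpos, h1]
  · right
    refine ⟨h2, fun k => ?_, fun k => ?_⟩
    · simp only [Cfg.pos, h1]; ring
    · simp only [Cfg.cpos, h1]; ring

lemma kap_spec (D : Dat C c B σ B' σ' z) {j : ℤ} (h1 : C.lo c ≤ j) (h2 : j ≤ z) :
    C.k1 B ≤ kap C B σ j ∧ kap C B σ j ≤ C.k2 B ∧ C.pos B σ (kap C B σ j) = j := by
  have := D.hz
  have := D.hW
  rcases D.posB with ⟨-, q1, q2, -, q4⟩ | ⟨-, q1, q2, -, q4⟩ <;> rw [q2, q4] <;> omega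

lemma kap_pos (D : Dat C c B σ B' σ' z) (k : ℤ) : kap C B σ (C.pos B σ k) = k := by
  rcases D.posB with ⟨-, q1, q2, -, q4⟩ | ⟨-, q1, q2, -, q4⟩ <;> rw [q2, q4] <;> omega

lemma rngB (D : Dat C c B σ B' σ' z) (k : ℤ) :
    ((nw C c B σ z).k1 B ≤ k ∧ k ≤ (nw C c B σ z).k2 B) ↔
      (C.k1 B ≤ k ∧ k ≤ C.k2 B ∧ z ≤ C.pos B σ k) := by
  have := D.hz
  have := D.hW
  have := D.hlt
  rcases D.posB with ⟨q0, q1, q2, -, q4⟩ | ⟨q0, q1, q2, -, q4⟩
  · have a1 : (nw C c B σ z).k1 B = z - C.st B σ := by simp [nw, q0, q4]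
    have a2 : (nw C c B σ z).k2 B = C.k2 B := by simp [nw, q0]
    rw [a1, a2, q2]
    omega
  · have a1 : (nw C c B σ z).k1 B = C.k1 B := by simp [nw, q0]
    have a2 : (nw C c B σ z).k2 B = C.st B σ - z := by simp [nw, q0, q4]
    rw [a1, a2, q2]
    omega

lemma sqB (D : Dat C c B σ B' σ' z) (k : ℤ) :
    ((nw C c B σ z).k1 B ≤ k ∧ k < (nw C c B σ z).k2 B) ↔
      (C.k1 B ≤ k ∧ k < C.k2 B ∧ 2 * z < C.cpos B σ k) := by
  have := D.hz
  have := D.hW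
  have := D.hlt
  rcases D.posB with ⟨q0, q1, -, q2, q4⟩ | ⟨q0, q1, -, q2, q4⟩
  · have a1 : (nw C c B σ z).k1 B = z - C.st B σ := by simp [nw, q0, q4]
    have a2 : (nw C c B σ z).k2 B = C.k2 B := by simp [nw, q0]
    rw [a1, a2, q2]
    omega
  · have a1 : (nw C c B σ z).k1 B = C.k1 B := by simp [nw, q0]
    have a2 : (nw C c B σ z).k2 B = C.st B σ - z := by simp [nw, q0, q4]
    rw [a1, a2, q2]
    omega

lemma rng_sub (D : Dat C c B σ B' σ' z) {e : E} {k : ℤ} (h1 : (nw C c B σ z).k1 e ≤ k)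
    (h2 : k ≤ (nw C c B σ z).k2 e) :
    C.k1 e ≤ k ∧ k ≤ C.k2 e ∧ (e = B → z ≤ C.pos B σ k) := by
  by_cases he : e = B
  · subst he
    obtain ⟨a1, a2, a3⟩ := (D.rngB k).1 ⟨h1, h2⟩
    exact ⟨a1, a2, fun _ => a3⟩
  · rw [k1_ne he] at h1
    rw [k2_ne he] at h2
    exact ⟨h1, h2, fun h => absurd h he⟩

lemma rng_sup (D : Dat C c B σ B' σ' z) {e : E} {k : ℤ} (h1 : C.k1 e ≤ k) (h2 : k ≤ C.k2 e)
    (h3 : e = B → z ≤ C.pos B σ k) :
    (nw C c B σ z).k1 e ≤ k ∧ k ≤ (nw C c B σ z).k2 e := by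
  by_cases he : e = B
  · subst he
    exact (D.rngB k).2 ⟨h1, h2, h3 rfl⟩
  · rw [k1_ne he, k2_ne he]
    exact ⟨h1, h2⟩

lemma T_cases (D : Dat C c B σ B' σ' z) (G : C.Geo V0 L) {e : E} {s : Bool}
    (h : T C c B σ z e s) : (e, s) = (B', σ') ∨ C.k1 e = C.k2 e := by
  obtain ⟨h1, h2, h3, k, h4, h5, h6⟩ := h
  by_contra hcon
  rw [not_or] at hcon
  obtain ⟨h7, h8⟩ := hcon
  have r1 := (G.rng e h1 s (C.k1 e) le_rfl (by omega)).1
  have r2 := (G.rng e h1 s (C.k2 e) (by omega) le_rfl).1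
  rw [h2] at r1 r2
  have key : ∃ i, C.lo c ≤ i ∧ i < z ∧ C.Cov (e, s) c i := by
    rcases G.pos_cases h1 s with ⟨-, q1, q2⟩ | ⟨-, q1, q2⟩
    · refine ⟨C.st e s + C.k1 e, by rw [q1] at r1; exact r1, by rw [q1] at h6; omega, h1, h2,
        C.k1 e, le_rfl, by show C.k1 e < C.k2 e; omega, ?_⟩
      show C.cpos e s _ = _
      rw [q2]; ring
    · refine ⟨C.st e s - C.k2 e, by rw [q1] at r2; exact r2, by rw [q1] at h6; omega, h1, h2,
        C.k2 e - 1, by show C.k1 e ≤ _; omega, by show _ < C.k2 e; omega, ?_⟩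
      show C.cpos e s _ = _
      rw [q2]; ring
  obtain ⟨i, i1, i2, i3⟩ := key
  rcases D.only _ i i1 i2 i3 with h | h
  · exact h3 h
  · exact h7 h

lemma T_rng (D : Dat C c B σ B' σ' z) (G : C.Geo V0 L) {e : E} {s : Bool}
    (h : T C c B σ z e s) {k : ℤ} (h1 : C.k1 e ≤ k) (h2 : k ≤ C.k2 e) :
    C.lo c ≤ C.pos e s k ∧ C.pos e s k ≤ z := by
  have r := (G.rng e h.1 s k h1 h2).1
  rw [h.2.1] at r
  refine ⟨r, ?_⟩
  rcases D.T_cases G h with h3 | h3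
  · obtain ⟨rfl, rfl⟩ := Prod.mk.inj h3
    have := D.hz
    rcases D.posB' with ⟨q1, q2, -⟩ | ⟨q1, q2, -⟩ <;> rw [q2] <;> omega
  · obtain ⟨-, -, -, k', a1, a2, a3⟩ := h
    have : k' = k := by omega
    subst this
    exact a3.le

lemma nT_B (D : Dat C c B σ B' σ' z) (G : C.Geo V0 L) (s : Bool) : ¬ T C c B σ z B s := by
  intro h
  rcases D.T_cases G h with h3 | h3
  · exact D.ne (Prod.mk.inj h3).1
  · have := D.hW
    have := D.hlt
    omega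

lemma T_B' (D : Dat C c B σ B' σ' z) : T C c B σ z B' σ' := by
  refine ⟨D.hB', D.cB', fun h => D.ne (Prod.mk.inj h).1.symm, ?_⟩
  have := D.az
  have := D.hlt
  rcases D.posB' with ⟨q1, q2, -⟩ | ⟨q1, q2, -⟩
  · exact ⟨C.k1 B', le_rfl, by omega, by rw [q2]; omega⟩
  · exact ⟨C.k2 B', by omega, le_rfl, by rw [q2]; omega⟩

/-- ends which are not moved are to the right of `z` -/
lemma nT_ge (D : Dat C c B σ B' σ' z) {e : E} {s : Bool} (h : ¬ T C c B σ z e s) (he : e ∈ C.R)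
    (hc : C.cp e s = c) {k : ℤ} (h1 : C.k1 e ≤ k) (h2 : k ≤ C.k2 e)
    (h3 : (e, s) = (B, σ) → z ≤ C.pos B σ k) : z ≤ C.pos e s k := by
  by_cases h4 : (e, s) = (B, σ)
  · have := h3 h4
    obtain ⟨rfl, rfl⟩ := Prod.mk.inj h4
    exact this
  · by_contra h5
    exact h ⟨he, hc, h4, k, h1, h2, by omega⟩

lemma other_ge (D : Dat C c B σ B' σ' z) (G : C.Geo V0 L) (hd : C.cp B (!σ) = c) {k : ℤ}
    (h1 : C.k1 B ≤ k) (h2 : k ≤ C.k2 B) : z ≤ C.pos B (!σ) k :=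
  D.nT_ge (D.nT_B G _) D.hB hd h1 h2 (fun h => by cases σ <;> simp at h)

lemma bt_ge (D : Dat C c B σ B' σ' z) (G : C.Geo V0 L) (hd : C.cp B (!σ) = c) {j : ℤ}
    (h1 : C.lo c ≤ j) (h2 : j ≤ z) : z ≤ bt C B σ j := by
  obtain ⟨a1, a2, -⟩ := D.kap_spec h1 h2
  exact D.other_ge G hd a1 a2

lemma cz_mem (D : Dat C c B σ B' σ' z) (hS : C.Sing) : (c, z) ∈ C.M := by
  have := D.hz
  obtain ⟨h1, h2⟩ := hS B' D.hB' σ'
  unfold Cfg.P at h1 h2
  rw [D.cB'] at h1 h2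
  rcases D.posB' with ⟨q1, q2, -⟩ | ⟨q1, q2, -⟩
  · rw [q2] at h2
    rwa [show z = C.st B' σ' + C.k2 B' by omega]
  · rw [q2] at h1
    rwa [show z = C.st B' σ' - C.k1 B' by omega]

lemma z_le_hi (D : Dat C c B σ B' σ' z) (G : C.Geo V0 L) : z ≤ C.hi c := by
  obtain ⟨a1, a2, a3⟩ := D.kap_spec D.az.le le_rfl
  have := (G.rng B D.hB σ _ a1 a2).2
  rwa [a3, D.cB] at this

end Dat

lemma mu_of_not {p : V × ℤ} (h : ¬ (p.1 = c ∧ p.2 < z)) : mu C c B σ z p = p := by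
  unfold mu
  rw [if_neg h]

lemma mu_of {j : ℤ} (h : j < z) : mu C c B σ z (c, j) = (C.cp B (!σ), bt C B σ j) := by
  unfold mu
  rw [if_pos ⟨rfl, h⟩]

lemma up_of_not {Q : Type} [Group Q] (x : Q) {p : V × ℤ} (h : ¬ (p.1 = c ∧ p.2 < z)) :
    up c z x p = 1 := by
  unfold up
  rw [if_neg h]

lemma up_of {Q : Type} [Group Q] (x : Q) {j : ℤ} (h : j < z) : up c z x (c, j) = x := by
  unfold up
  rw [if_pos ⟨rfl, h⟩]

end Pool.Agent.H354Z.Eat
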