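import Pool.Agent.H354Z.Eat.Step

set_option autoImplicit false
set_option linter.unusedSectionVars false
set_option linter.unusedSimpArgs false
set_option linter.unusedVariables false

/-! # The third phase -/

namespace Pool.Agent.H354Z.Eat

open Pool.Agent.H8Z.BTE Pool.Agent.H8Z.BTE.Cfg

variable {α E V : Type} [DecidableEq α]
variable {C : Cfg α E V} {c : V} {B B' : E} {σ σ' : Bool} {z : ℤ} {V0 : FreeGroup α} {L : ℤ}

namespace Dat

lemma cells_sub (D : Dat C c B σ B' σ' z) {p : V × ℤ} (hp : p ∈ (nw C c B σ z).cells) :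
    p ∈ C.cells ∧ (p.1 = c → z ≤ p.2) := by
  have := D.az
  obtain ⟨h1, h2⟩ := hp
  simp only [nw] at h1 h2
  split_ifs at h1 with h3
  · exact ⟨⟨by rw [h3]; omega, h2⟩, fun _ => h1⟩
  · exact ⟨⟨h1, h2⟩, fun h => absurd h h3⟩

lemma cells_lt [Finite V] (D : Dat C c B σ B' σ' z) (G : C.Geo V0 L) :
    (nw C c B σ z).cells.ncard < C.cells.ncard := by
  have h1 := D.az
  have h2 := D.z_le_hi G
  refine Set.ncard_lt_ncard ⟨fun p hp => (D.cells_sub hp).1, fun h => ?_⟩ cells_finite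
  have h3 : (c, C.lo c) ∈ C.cells := ⟨le_rfl, by show C.lo c < C.hi c; omega⟩
  have := (D.cells_sub (h h3)).2 rfl
  simp only at this
  omega

lemma sing (D : Dat C c B σ B' σ' z) (G : C.Geo V0 L) (hS : C.Sing) : (nw C c B σ z).Sing := by
  have key : ∀ e ∈ C.R, ∀ s k, C.k1 e ≤ k → k ≤ C.k2 e → (e = B → z ≤ C.pos B σ k) →
      C.P e s k ∈ C.M → (nw C c B σ z).P e s k ∈ (nw C c B σ z).M :=
    fun e he s k h1 h2 h3 h4 => (D.conn G (Q := Unit) (fun _ => 1) he s h1 h2 h3 h4).1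
  intro e he s
  by_cases hb : e = B
  · subst hb
    obtain ⟨a1, a2, a3⟩ := D.kap_spec D.az.le le_rfl
    have hk : (nw C c e σ z).P e s (kap C e σ z) ∈ (nw C c e σ z).M := by
      by_cases hs : s = σ
      · subst hs
        refine key e he s _ a1 a2 (fun _ => a3.ge) ?_
        unfold Cfg.P
        rw [D.cB, a3]
        exact D.cz_mem hS
      · have hs' : s = !σ := by
          cases s <;> cases σ <;> simp_all
        subst hs'
        rw [P_nT (D.nT_B G _)]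
        exact Or.inr rfl
    have hz := D.hz
    have hW := D.hW
    have hk12 := G.kle e he
    rcases D.posB with ⟨q0, q1, q2, -, q4⟩ | ⟨q0, q1, q2, -, q4⟩
    · have b1 : (nw C c e σ z).k1 e = kap C e σ z := by simp [nw, q0]
      have b2 : (nw C c e σ z).k2 e = C.k2 e := by simp [nw, q0]
      rw [b1, b2]
      exact ⟨hk, key e he s _ hk12 le_rfl (fun _ => by rw [q2]; omega) (hS e he s).2⟩
    · have b1 : (nw C c e σ z).k1 e = C.k1 e := by simp [nw, q0]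
      have b2 : (nw C c e σ z).k2 e = kap C e σ z := by simp [nw, q0]
      rw [b1, b2]
      exact ⟨key e he s _ le_rfl hk12 (fun _ => by rw [q2]; omega) (hS e he s).1, hk⟩
  · rw [k1_ne hb, k2_ne hb]
    have hk12 := G.kle e he
    exact ⟨key e he s _ le_rfl hk12 (fun h => absurd h hb) (hS e he s).1,
      key e he s _ hk12 le_rfl (fun h => absurd h hb) (hS e he s).2⟩

lemma card_M (D : Dat C c B σ B' σ' z) (G : C.Geo V0 L) (hS : C.Sing) :
    (nw C c B σ z).M.ncard ≤ C.M.ncard := by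
  have haz := D.az
  obtain ⟨a1, a2, a3⟩ := D.kap_spec le_rfl haz.le
  have hk : kap C B σ (C.lo c) = C.k1 B ∨ kap C B σ (C.lo c) = C.k2 B := by
    rcases D.posB with ⟨q0, q1, q2, -, q4⟩ | ⟨q0, q1, q2, -, q4⟩ <;> rw [q4] <;> omega
  have hm : ∀ s, C.P B s (kap C B σ (C.lo c)) ∈ C.M := by
    intro s
    rcases hk with h | h <;> rw [h]
    · exact (hS B D.hB s).1
    · exact (hS B D.hB s).2
  have m1 : (c, C.lo c) ∈ C.M := by
    have := hm σ
    unfold Cfg.P at this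
    rwa [D.cB, a3] at this
  have m2 : (C.cp B (!σ), bt C B σ (C.lo c)) ∈ C.M := hm (!σ)
  have n2 : ¬ ((C.cp B (!σ), bt C B σ (C.lo c)).1 = c ∧
      (C.cp B (!σ), bt C B σ (C.lo c)).2 < z) := by
    rintro ⟨b1, b2⟩
    have := D.bt_ge G b1 le_rfl haz.le
    simp only at b2
    omega
  have hne : (C.cp B (!σ), bt C B σ (C.lo c)) ≠ (c, C.lo c) := by
    intro h
    rw [h] at n2
    exact n2 ⟨rfl, haz⟩
  have h1 : mu C c B σ z '' C.M ⊆ mu C c B σ z '' (C.M \ {(c, C.lo c)}) := by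
    rintro _ ⟨p, hp, rfl⟩
    by_cases h : p = (c, C.lo c)
    · refine ⟨_, ⟨m2, hne⟩, ?_⟩
      rw [mu_of_not n2, h, mu_of haz]
    · exact ⟨p, ⟨hp, h⟩, rfl⟩
  have hf : (C.M \ {(c, C.lo c)}).Finite := G.fin.subset Set.diff_subset
  have h2 : (mu C c B σ z '' C.M).ncard ≤ (C.M \ {(c, C.lo c)}).ncard :=
    (Set.ncard_le_ncard h1 (hf.image _)).trans (Set.ncard_image_le hf)
  have h3 := Set.ncard_diff_singleton_add_one m1 G.fin
  have h4 := Set.ncard_union_le (mu C c B σ z '' C.M) {(C.cp B (!σ), bt C B σ z)}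
  rw [Set.ncard_singleton] at h4
  show (mu C c B σ z '' C.M ∪ {(C.cp B (!σ), bt C B σ z)}).ncard ≤ _
  omega

/-- the region where the moved end lands -/
def Rg (C : Cfg α E V) (B : E) (σ : Bool) (z : ℤ) (d : V) (i : ℤ) : Prop :=
  C.cp B (!σ) = d ∧ ∃ k, C.k1 B ≤ k ∧ k < C.k2 B ∧ C.cpos B σ k < 2 * z ∧
    C.cpos B (!σ) k = 2 * i + 1

lemma cov_other (D : Dat C c B σ B' σ' z) (G : C.Geo V0 L) {d : V} {i : ℤ} (hi : d = c → z ≤ i)
    {β : E × Bool} (h1 : β ≠ (B, !σ)) (h2 : β ≠ (B', σ')) :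
    (nw C c B σ z).Cov β d i ↔ C.Cov β d i := by
  obtain ⟨e, s⟩ := β
  unfold Cfg.Cov
  simp only
  by_cases hb : e = B
  · subst hb
    have hs : s = σ := by
      by_contra h
      apply h1
      cases s <;> cases σ <;> simp_all
    subst hs
    rw [cp_nT (D.nT_B G _)]
    constructor
    · rintro ⟨a1, a2, k, a3, a4, a5⟩
      obtain ⟨b1, b2, -⟩ := (D.sqB k).1 ⟨a3, a4⟩
      rw [cpos_nT (D.nT_B G _)] at a5
      exact ⟨a1, a2, k, b1, b2, a5⟩
    · rintro ⟨a1, a2, k, a3, a4, a5⟩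
      have := hi (a2 ▸ D.cB)
      obtain ⟨b1, b2⟩ := (D.sqB k).2 ⟨a3, a4, by omega⟩
      exact ⟨a1, a2, k, b1, b2, by rw [cpos_nT (D.nT_B G _)]; exact a5⟩
  · rw [k1_ne hb, k2_ne hb]
    by_cases hT : T C c B σ z e s
    · have h3 : C.k1 e = C.k2 e := (D.T_cases G hT).resolve_left h2
      constructor
      · rintro ⟨-, -, k, a3, a4, -⟩
        omega
      · rintro ⟨-, -, k, a3, a4, -⟩
        omega
    · rw [cp_nT hT]
      simp only [cpos_nT hT]
      rfl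

lemma cov_B (D : Dat C c B σ B' σ' z) (G : C.Geo V0 L) {d : V} {i : ℤ} :
    (nw C c B σ z).Cov (B, !σ) d i ↔ C.Cov (B, !σ) d i ∧ ¬ Rg C B σ z d i := by
  unfold Cfg.Cov Rg
  simp only
  rw [cp_nT (D.nT_B G _)]
  simp only [cpos_nT (D.nT_B G _)]
  have hodd : ∀ k, C.cpos B σ k ≠ 2 * z := by
    intro k
    rcases D.posB with ⟨-, -, -, q2, -⟩ | ⟨-, -, -, q2, -⟩ <;> rw [q2] <;> omega
  constructor
  · rintro ⟨a1, a2, k, a3, a4, a5⟩
    obtain ⟨b1, b2, b3⟩ := (D.sqB k).1 ⟨a3, a4⟩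
    refine ⟨⟨a1, a2, k, b1, b2, a5⟩, ?_⟩
    rintro ⟨-, k', c1, c2, c3, c4⟩
    have : k' = k := by
      rcases G.pos_cases D.hB (!σ) with ⟨-, -, q2⟩ | ⟨-, -, q2⟩ <;> rw [q2] at a5 c4 <;> omega
    subst this
    omega
  · rintro ⟨⟨a1, a2, k, a3, a4, a5⟩, h⟩
    have h1 : 2 * z < C.cpos B σ k := by
      by_contra h2
      have := hodd k
      exact h ⟨a2, k, a3, a4, by omega, a5⟩
    obtain ⟨b1, b2⟩ := (D.sqB k).2 ⟨a3, a4, h1⟩
    exact ⟨a1, a2, k, b1, b2, a5⟩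

lemma cov_B' (D : Dat C c B σ B' σ' z) (G : C.Geo V0 L) {d : V} {i : ℤ} :
    (nw C c B σ z).Cov (B', σ') d i ↔ Rg C B σ z d i := by
  have hT := D.T_B'
  unfold Cfg.Cov Rg
  simp only
  rw [cp_T hT, k1_ne D.ne.symm, k2_ne D.ne.symm]
  constructor
  · rintro ⟨a1, a2, k, a3, a4, a5⟩
    obtain ⟨k', b1, b2, b3, b4, b5⟩ := D.T_sq G hT a3 a4
    exact ⟨a2, k', b1, b2, b4, b5 ▸ a5⟩
  · rintro ⟨a2, k', b1, b2, b4, b5⟩
    have hz := D.hz
    have hk : ∃ k, C.k1 B' ≤ k ∧ k < C.k2 B' ∧ C.cpos B' σ' k = C.cpos B σ k' := by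
      have hj : ∃ j, C.lo c ≤ j ∧ j < z ∧ C.cpos B σ k' = 2 * j + 1 := by
        rcases D.posB with ⟨-, q1, -, q2, -⟩ | ⟨-, q1, -, q2, -⟩ <;> rw [q2] at b4 ⊢
        · exact ⟨C.st B σ + k', by omega, by omega, by ring⟩
        · exact ⟨C.st B σ - k' - 1, by omega, by omega, by ring⟩
      obtain ⟨j, j1, j2, j3⟩ := hj
      rw [j3]
      rcases D.posB' with ⟨q1, -, q2⟩ | ⟨q1, -, q2⟩
      · exact ⟨j - C.st B' σ', by omega, by omega, by rw [q2]; ring⟩
      · exact ⟨C.st B' σ' - j - 1, by omega, by omega, by rw [q2]; ring⟩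
    obtain ⟨k, a3, a4, a5⟩ := hk
    refine ⟨D.hB', a2, k, a3, a4, ?_⟩
    obtain ⟨k'', c1, c2, c3, c4, c5⟩ := D.T_sq G hT a3 a4
    have : k'' = k' := by
      rw [a5] at c3
      rcases D.posB with ⟨-, -, -, q2, -⟩ | ⟨-, -, -, q2, -⟩ <;> rw [q2, q2] at c3 <;> omega
    rw [c5, this, b5]

lemma not_cov_B' (D : Dat C c B σ B' σ' z) {d : V} {i : ℤ} (hi : d = c → z ≤ i) :
    ¬ C.Cov (B', σ') d i := by
  rintro ⟨-, a2, k, a3, a4, a5⟩
  simp only at a2 a3 a4 a5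
  have := hi (a2 ▸ D.cB')
  have hz := D.hz
  rcases D.posB' with ⟨q1, -, q2⟩ | ⟨q1, -, q2⟩ <;> rw [q2] at a5 <;> omega

lemma wt_eq (D : Dat C c B σ B' σ' z) (G : C.Geo V0 L) {d : V} {i : ℤ} (hi : d = c → z ≤ i) :
    (nw C c B σ z).wt d i = C.wt d i := by
  have hne : ((B', σ') : E × Bool) ≠ (B, !σ) := fun h => D.ne (Prod.mk.inj h).1.symm
  have hn := D.not_cov_B' hi
  unfold Cfg.wt
  by_cases hR : Rg C B σ z d i
  · have h1 : C.Cov (B, !σ) d i := by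
      obtain ⟨a2, k', b1, b2, b4, b5⟩ := hR
      exact ⟨D.hB, a2, k', b1, b2, b5⟩
    rw [← Set.ncard_exchange (s := {β | C.Cov β d i}) (a := (B', σ')) (b := (B, !σ)) hn h1]
    congr 1
    ext β
    simp only [Set.mem_setOf_eq, Set.mem_insert_iff, Set.mem_diff, Set.mem_singleton_iff]
    by_cases e1 : β = (B, !σ)
    · subst e1
      rw [D.cov_B G]
      simp [hR, hne.symm]
    · by_cases e2 : β = (B', σ')
      · subst e2
        rw [D.cov_B' G]
        simp [hR]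
      · rw [D.cov_other G hi e1 e2]
        simp [e1, e2]
  · congr 1
    ext β
    simp only [Set.mem_setOf_eq]
    by_cases e1 : β = (B, !σ)
    · subst e1
      rw [D.cov_B G]
      simp [hR]
    · by_cases e2 : β = (B', σ')
      · subst e2
        rw [D.cov_B' G]
        simp [hR, hn]
      · exact D.cov_other G hi e1 e2

lemma pure (D : Dat C c B σ B' σ' z) (G : C.Geo V0 L) (h : C.Pure) : (nw C c B σ z).Pure := by
  intro d hd
  have key : ∀ i, (nw C c B σ z).lo d ≤ i → i < (nw C c B σ z).hi d →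
      C.lo d ≤ i ∧ i < C.hi d ∧ (nw C c B σ z).wt d i = C.wt d i := by
    intro i h1 h2
    obtain ⟨a1, a2⟩ := D.cells_sub (p := (d, i)) ⟨h1, h2⟩
    exact ⟨a1.1, a1.2, D.wt_eq G a2⟩
  rcases h d hd with h | h
  · left
    intro i h1 h2
    obtain ⟨a1, a2, a3⟩ := key i h1 h2
    rw [a3]
    exact h i a1 a2
  · right
    intro i h1 h2
    obtain ⟨a1, a2, a3⟩ := key i h1 h2
    rw [a3]
    exact h i a1 a2

end Dat

lemma cov_lo (G : C.Geo V0 L) {e : E} {s : Bool} (h : C.Cov (e, s) c (C.lo c)) :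
    e ∈ C.R ∧ C.cp e s = c ∧ C.k1 e < C.k2 e ∧
      ((C.dr e s = 1 ∧ C.st e s + C.k1 e = C.lo c) ∨
        (C.dr e s = -1 ∧ C.st e s - C.k2 e = C.lo c)) := by
  obtain ⟨h1, h2, k, h3, h4, h5⟩ := h
  simp only at h1 h2 h3 h4 h5
  have r1 := (G.rng e h1 s (C.k1 e) le_rfl (by omega)).1
  have r2 := (G.rng e h1 s (C.k2 e) (by omega) le_rfl).1
  rw [h2] at r1 r2
  refine ⟨h1, h2, by omega, ?_⟩
  rcases G.pos_cases h1 s with ⟨q0, q1, q2⟩ | ⟨q0, q1, q2⟩
  · rw [q1] at r1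
    rw [q2] at h5
    exact Or.inl ⟨q0, by omega⟩
  · rw [q1] at r2
    rw [q2] at h5
    exact Or.inr ⟨q0, by omega⟩

lemma cov_of (G : C.Geo V0 L) {e : E} {s : Bool} (h : C.Cov (e, s) c (C.lo c)) {i : ℤ}
    (h1 : C.lo c ≤ i) (h2 : i < C.lo c + (C.k2 e - C.k1 e)) : C.Cov (e, s) c i := by
  obtain ⟨a1, a2, a3, a4⟩ := cov_lo G h
  refine ⟨a1, a2, ?_⟩
  simp only
  rcases a4 with ⟨q0, q1⟩ | ⟨q0, q1⟩
  · exact ⟨i - C.st e s, by omega, by omega, by unfold Cfg.cpos; rw [q0]; ring⟩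
  · exact ⟨C.st e s - i - 1, by omega, by omega, by unfold Cfg.cpos; rw [q0]; ring⟩

lemma not_both (G : C.Geo V0 L) (ht : C.Tr) {e : E} (h1 : C.Cov (e, true) c (C.lo c))
    (h2 : C.Cov (e, false) c (C.lo c)) : False := by
  obtain ⟨a1, a2, a3, a4⟩ := cov_lo G h1
  obtain ⟨-, b2, -, b4⟩ := cov_lo G h2
  obtain ⟨g, hg⟩ := ht (fun _ _ => 1)
  have e1 := hg e a1 (C.k1 e) le_rfl a3
  have e2 := hg e a1 (C.k2 e - 1) (by omega) (by omega)
  rw [a2, b2] at e1 e2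
  rcases a4 with ⟨q0, q1⟩ | ⟨q0, q1⟩ <;> rcases b4 with ⟨p0, p1⟩ | ⟨p0, p1⟩
  · have : C.cpos e true (C.k1 e) = C.cpos e false (C.k1 e) := by
      unfold Cfg.cpos
      rw [q0, p0]
      omega
    rw [this] at e1
    simp at e1
  · have f1 : C.cpos e true (C.k1 e) = C.cpos e false (C.k2 e - 1) := by
      unfold Cfg.cpos
      rw [q0, p0]
      omega
    have f2 : C.cpos e true (C.k2 e - 1) = C.cpos e false (C.k1 e) := by
      unfold Cfg.cpos
      rw [q0, p0]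
      omega
    rw [f1] at e1
    rw [f2] at e2
    linarith
  · have f1 : C.cpos e true (C.k1 e) = C.cpos e false (C.k2 e - 1) := by
      unfold Cfg.cpos
      rw [q0, p0]
      omega
    have f2 : C.cpos e true (C.k2 e - 1) = C.cpos e false (C.k1 e) := by
      unfold Cfg.cpos
      rw [q0, p0]
      omega
    rw [f1] at e1
    rw [f2] at e2
    linarith
  · have : C.cpos e true (C.k1 e) = C.cpos e false (C.k1 e) := by
      unfold Cfg.cpos
      rw [q0, p0]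
      omega
    rw [this] at e1
    simp at e1

lemma mk_dat [Finite E] (h : C.Inv V0 L) (hc : c ≠ C.c0)
    (hw : ∀ i, C.lo c ≤ i → i < C.hi c → C.wt c i = 2) (hne : ((B, σ) : E × Bool) ≠ (B', σ'))
    (h1 : C.Cov (B, σ) c (C.lo c)) (h2 : C.Cov (B', σ') c (C.lo c))
    (hW : C.k2 B' - C.k1 B' ≤ C.k2 B - C.k1 B) :
    Dat C c B σ B' σ' (C.lo c + (C.k2 B' - C.k1 B')) := by
  have G := h.geo
  obtain ⟨a1, a2, a3, a4⟩ := cov_lo G h1
  obtain ⟨b1, b2, b3, b4⟩ := cov_lo G h2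
  refine ⟨hc, a1, b1, a2, b2, a4, b4, rfl, b3, hW, ?_, ?_⟩
  · rintro rfl
    cases σ <;> cases σ'
    · exact hne rfl
    · exact not_both G h.tr h2 h1
    · exact not_both G h.tr h1 h2
    · exact hne rfl
  · intro β i i1 i2 hβ
    have r1 := (G.rng B' b1 σ' (C.k1 B') le_rfl b3.le).2
    have r2 := (G.rng B' b1 σ' (C.k2 B') b3.le le_rfl).2
    rw [b2] at r1 r2
    have i3 : i < C.hi c := by
      unfold Cfg.pos at r1 r2
      rcases b4 with ⟨q0, q1⟩ | ⟨q0, q1⟩ <;> rw [q0] at r1 r2 <;> omega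
    have hsub : ({(B, σ), (B', σ')} : Set (E × Bool)) ⊆ {β | C.Cov β c i} := by
      rintro _ (rfl | rfl)
      · exact cov_of G h1 i1 (by omega)
      · exact cov_of G h2 i1 i2
    have heq := Set.eq_of_subset_of_ncard_le hsub (by
      rw [Set.ncard_pair hne]
      exact (hw i i1 i3).le) (Set.toFinite _)
    have : β ∈ ({(B, σ), (B', σ')} : Set (E × Bool)) := by
      rw [heq]
      exact hβ
    exact this

lemma exists_dat [Finite E] (h : C.Inv V0 L) (hc : c ≠ C.c0) (hl : C.lo c < C.hi c)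
    (hw : ∀ i, C.lo c ≤ i → i < C.hi c → C.wt c i = 2) :
    ∃ B σ B' σ' z, Dat C c B σ B' σ' z := by
  obtain ⟨⟨x, s⟩, ⟨y, t⟩, hxy, hS⟩ := Set.ncard_eq_two.1 (hw _ le_rfl hl)
  have hx : C.Cov (x, s) c (C.lo c) := by
    have : (x, s) ∈ {β | C.Cov β c (C.lo c)} := by rw [hS]; simp
    exact this
  have hy : C.Cov (y, t) c (C.lo c) := by
    have : (y, t) ∈ {β | C.Cov β c (C.lo c)} := by rw [hS]; simp
    exact this
  rcases le_total (C.k2 y - C.k1 y) (C.k2 x - C.k1 x) with hW | hW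
  · exact ⟨x, s, y, t, _, mk_dat h hc hw hxy hx hy hW⟩
  · exact ⟨y, t, x, s, _, mk_dat h hc hw hxy.symm hy hx hW⟩

theorem eatS (α : Type) [DecidableEq α] : EatS α := by
  intro E V _ _ C V0 L
  induction hn : C.cells.ncard using Nat.strong_induction_on generalizing C with
  | _ n ih =>
    intro hI hS hP
    by_cases hex : ∃ c, c ≠ C.c0 ∧ C.lo c < C.hi c ∧ ∀ i, C.lo c ≤ i → i < C.hi c → C.wt c i = 2
    · obtain ⟨c, h1, h2, h3⟩ := hex
      obtain ⟨B, σ, B', σ', z, D⟩ := exists_dat hI h1 h2 h3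
      obtain ⟨C', a1, a2, a3, a4⟩ := ih _ (hn ▸ D.cells_lt hI.geo) (nw C c B σ z) rfl (D.inv hI)
        (D.sing hI.geo hS) (D.pure hI.geo hP)
      exact ⟨C', a1, a2.trans (D.card_M hI.geo hS), a3, a4⟩
    · refine ⟨C, hI, le_rfl, le_rfl, fun c i h1 h2 h3 => ?_⟩
      rcases hP c h1 with h | h
      · exact absurd ⟨c, h1, by omega, h⟩ hex
      · exact h i h2 h3

end Pool.Agent.H354Z.Eat
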