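import Pool.Agent.H354Z.Eat.Basic

set_option autoImplicit false
set_option linter.unusedSectionVars false
set_option linter.unusedSimpArgs false
set_option linter.unusedVariables false

/-! # The invariants after one step -/

namespace Pool.Agent.H354Z.Eat

open Pool.Agent.H8Z.BTE Pool.Agent.H8Z.BTE.Cfg

variable {α E V : Type} [DecidableEq α]
variable {C : Cfg α E V} {c : V} {B B' : E} {σ σ' : Bool} {z : ℤ} {V0 : FreeGroup α} {L : ℤ}

/-- the twisted marking -/
noncomputable def tw {Q : Type} [Group Q] (C : Cfg α E V) (c : V) (B : E) (σ : Bool) (z : ℤ)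
    (f : E → Q) (e : E) : Q :=
  (uu C c B σ z (lv f (B, !σ)) e true)⁻¹ * f e * uu C c B σ z (lv f (B, !σ)) e false

lemma lv_tw {Q : Type} [Group Q] (f : E → Q) (e : E) (s : Bool) :
    lv (tw C c B σ z f) (e, s) = (uu C c B σ z (lv f (B, !σ)) e s)⁻¹ * lv f (e, s) *
      uu C c B σ z (lv f (B, !σ)) e (!s) := by
  cases s
  · simp only [lv_false, tw, Bool.not_false]
    group
  · simp only [lv_true, tw, Bool.not_true]

namespace Dat

lemma lv_tw_B (D : Dat C c B σ B' σ' z) (G : C.Geo V0 L) {Q : Type} [Group Q] (f : E → Q)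
    (s : Bool) : lv (tw C c B σ z f) (B, s) = lv f (B, s) := by
  rw [lv_tw, uu_nT _ (D.nT_B G _), uu_nT _ (D.nT_B G _)]
  group

lemma conn (D : Dat C c B σ B' σ' z) (G : C.Geo V0 L) {Q : Type} [Group Q] (f : E → Q)
    {e : E} (he : e ∈ C.R) (s : Bool) {k : ℤ} (h1 : C.k1 e ≤ k) (h2 : k ≤ C.k2 e)
    (h3 : e = B → z ≤ C.pos B σ k) (hM : C.P e s k ∈ C.M) :
    (nw C c B σ z).P e s k ∈ (nw C c B σ z).M ∧
      ∃ m, Pth (nw C c B σ z).Step (mu C c B σ z (C.P e s k)) ((nw C c B σ z).P e s k) m ∧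
        ev f m = uu C c B σ z (lv f (B, !σ)) e s * (up c z (lv f (B, !σ)) (C.P e s k))⁻¹ := by
  by_cases hT : T C c B σ z e s
  · obtain ⟨r1, r2⟩ := D.T_rng G hT h1 h2
    have hP : C.P e s k = (c, C.pos e s k) := by
      unfold Cfg.P
      rw [hT.2.1]
    rcases lt_or_eq_of_le r2 with h4 | h4
    · have h5 : (nw C c B σ z).P e s k = mu C c B σ z (C.P e s k) := by
        rw [P_T hT, hP, mu_of h4]
      refine ⟨h5 ▸ Or.inl ⟨_, hM, rfl⟩, [], h5 ▸ Pth.nil _, ?_⟩
      rw [hP, up_of _ h4, uu_T _ hT]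
      simp
    · have h5 : (nw C c B σ z).P e s k = (C.cp B (!σ), bt C B σ z) := by
        rw [P_T hT, h4]
      have h6 : ¬ ((C.P e s k).1 = c ∧ (C.P e s k).2 < z) := by
        rw [hP]
        rintro ⟨-, h7⟩
        simp only at h7
        omega
      have h7 : mu C c B σ z (C.P e s k) = (c, z) := by
        rw [mu_of_not h6, hP, h4]
      obtain ⟨a1, a2, a3⟩ := D.kap_spec D.az.le le_rfl
      have hin : (nw C c B σ z).P e s k ∈ (nw C c B σ z).M := h5 ▸ Or.inr rfl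
      refine ⟨hin, [(B, !σ)], Pth.single ?_, ?_⟩
      · obtain ⟨b1, b2⟩ := (D.rngB (kap C B σ z)).2 ⟨a1, a2, a3.ge⟩
        refine ⟨D.hB, Or.inl ⟨_, hM, rfl⟩, hin, kap C B σ z, b1, b2, ?_, ?_⟩
        · simp only [Bool.not_not]
          rw [h7, P_nT (D.nT_B G _)]
          unfold Cfg.P
          rw [D.cB, a3]
        · simp only
          rw [h5, P_nT (D.nT_B G _)]
          rfl
      · rw [up_of_not _ h6, uu_T _ hT]
        simp
  · have h6 : ¬ ((C.P e s k).1 = c ∧ (C.P e s k).2 < z) := by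
      rintro ⟨h7, h8⟩
      have := D.nT_ge hT he h7 h1 h2 (fun h => h3 (Prod.mk.inj h).1)
      simp only [Cfg.P] at h8
      omega
    have h5 : (nw C c B σ z).P e s k = mu C c B σ z (C.P e s k) := by
      rw [P_nT hT, mu_of_not h6]
    refine ⟨h5 ▸ Or.inl ⟨_, hM, rfl⟩, [], h5 ▸ Pth.nil _, ?_⟩
    rw [up_of_not _ h6, uu_nT _ hT]
    simp

lemma sim (D : Dat C c B σ B' σ' z) (G : C.Geo V0 L) {Q : Type} [Group Q] (f : E → Q)
    {p q : V × ℤ} {l : List (E × Bool)} (h : Pth C.Step p q l) :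
    ∃ m, Pth (nw C c B σ z).Step (mu C c B σ z p) (mu C c B σ z q) m ∧
      ev f m = up c z (lv f (B, !σ)) q * ev (tw C c B σ z f) l *
        (up c z (lv f (B, !σ)) p)⁻¹ := by
  refine Pth.sim (mu C c B σ z) (up c z (lv f (B, !σ))) _ f ?_ h
  rintro p q ⟨e, s⟩ ⟨h1, h2, h3, k, h4, h5, h6, h7⟩
  simp only at h1 h4 h5 h6 h7
  subst h6 h7
  by_cases hk : e = B ∧ C.pos B σ k < z
  · obtain ⟨rfl, hk⟩ := hk
    have a1 : C.P e σ k = (c, C.pos e σ k) := by
      unfold Cfg.P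
      rw [D.cB]
    have a2 : ¬ ((C.P e (!σ) k).1 = c ∧ (C.P e (!σ) k).2 < z) := by
      rintro ⟨b1, b2⟩
      have := D.other_ge G b1 h4 h5
      simp only [Cfg.P] at b2
      omega
    have a3 : mu C c e σ z (C.P e σ k) = C.P e (!σ) k := by
      rw [a1, mu_of hk]
      unfold bt
      rw [D.kap_pos]
      rfl
    have a4 : mu C c e σ z (C.P e (!σ) k) = C.P e (!σ) k := mu_of_not a2
    have a5 : up c z (lv f (e, !σ)) (C.P e σ k) = lv f (e, !σ) := by
      rw [a1, up_of _ hk]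
    have a6 : up c z (lv f (e, !σ)) (C.P e (!σ) k) = 1 := up_of_not _ a2
    rw [D.lv_tw_B G]
    by_cases hs : s = σ
    · subst hs
      rw [a3, a4, a5, a6]
      refine ⟨[], Pth.nil _, ?_⟩
      rw [lv_not]
      simp
    · have hs' : s = !σ := by
        cases s <;> cases σ <;> simp_all
      subst hs'
      simp only [Bool.not_not]
      rw [a3, a4, a5, a6]
      refine ⟨[], Pth.nil _, ?_⟩
      simp
  · have hk' : e = B → z ≤ C.pos B σ k := fun h => by
      by_contra h8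
      exact hk ⟨h, by omega⟩
    obtain ⟨a1, m1, a2, a3⟩ := D.conn G f h1 (!s) h4 h5 hk' h2
    obtain ⟨b1, m2, b2, b3⟩ := D.conn G f h1 s h4 h5 hk' h3
    obtain ⟨m3, b4, b5⟩ := Pth.rev (Q := Q) (fun _ _ _ _ => Step.symm) b2
    obtain ⟨c1, c2⟩ := D.rng_sup h4 h5 hk'
    have st : (nw C c B σ z).Step ((nw C c B σ z).P e (!s) k) ((nw C c B σ z).P e s k)
        (e, s) := ⟨h1, a1, b1, k, c1, c2, rfl, rfl⟩
    refine ⟨m3 ++ ((e, s) :: m1), (Pth.cons a2 st).append b4, ?_⟩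
    rw [ev_append, ev_cons, b5, b3, a3, lv_tw]
    group

lemma pt_eq (D : Dat C c B σ B' σ' z) (G : C.Geo V0 L) {e : E} (s : Bool) {k : ℤ}
    (h1 : C.k1 e ≤ k) (h2 : k ≤ C.k2 e) :
    C.pt ((nw C c B σ z).cp e s) ((nw C c B σ z).pos e s k) =
      uu C c B σ z (lv C.w (B, !σ)) e s * C.pt (C.cp e s) (C.pos e s k) := by
  by_cases hT : T C c B σ z e s
  · obtain ⟨r1, r2⟩ := D.T_rng G hT h1 h2
    obtain ⟨a1, a2, a3⟩ := D.kap_spec r1 r2
    have := G.lab D.hB (!σ) a1 a2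
    rw [Bool.not_not, a3, D.cB] at this
    rw [cp_T hT, pos_T hT, uu_T _ hT, hT.2.1, this]
    rfl
  · rw [cp_nT hT, pos_nT hT, uu_nT _ hT, one_mul]

lemma geo (D : Dat C c B σ B' σ' z) (G : C.Geo V0 L) : (nw C c B σ z).Geo V0 L := by
  have haz := D.az
  have hc0 : C.c0 ≠ c := D.hc.symm
  refine ⟨?_, ?_, ?_, ?_, ?_, ?_, ?_, G.hi0, G.pV, (G.fin.image _).union (Set.finite_singleton _),
    ?_⟩
  · intro e he s
    by_cases hT : T C c B σ z e s
    · have a1 : (nw C c B σ z).dr e s = C.dr B (!σ) * C.dr B σ * C.dr e s := by simp [nw, hT]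
      rw [a1]
      rcases G.dr1 B D.hB (!σ) with q1 | q1 <;> rcases G.dr1 B D.hB σ with q2 | q2 <;>
        rcases G.dr1 e he s with q3 | q3 <;> rw [q1, q2, q3] <;> simp
    · have a1 : (nw C c B σ z).dr e s = C.dr e s := by simp [nw, hT]
      rw [a1]
      exact G.dr1 e he s
  · intro e he
    by_cases h : e = B
    · subst h
      obtain ⟨a1, a2, a3⟩ := D.kap_spec haz.le le_rfl
      obtain ⟨b1, b2⟩ := (D.rngB (kap C e σ z)).2 ⟨a1, a2, a3.ge⟩
      exact b1.trans b2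
    · rw [k1_ne h, k2_ne h]
      exact G.kle e he
  · intro e he s k h1 h2
    obtain ⟨a1, a2, a3⟩ := D.rng_sub h1 h2
    by_cases hT : T C c B σ z e s
    · obtain ⟨r1, r2⟩ := D.T_rng G hT a1 a2
      obtain ⟨b1, b2, -⟩ := D.kap_spec r1 r2
      have b3 := G.rng B D.hB (!σ) _ b1 b2
      rw [cp_T hT, pos_T hT]
      refine ⟨?_, b3.2⟩
      simp only [nw]
      split_ifs with h4
      · exact D.bt_ge G h4 r1 r2
      · exact b3.1
    · have b3 := G.rng e he s k a1 a2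
      rw [cp_nT hT, pos_nT hT]
      refine ⟨?_, b3.2⟩
      simp only [nw]
      split_ifs with h4
      · exact D.nT_ge hT he h4 a1 a2 (fun h => a3 (Prod.mk.inj h).1)
      · exact b3.1
  · intro e he k h1 h2
    obtain ⟨a1, a2, -⟩ := D.rng_sub h1 h2
    have b1 := D.pt_eq G false a1 a2
    have b2 := D.pt_eq G true a1 a2
    have b3 := G.eqn e he k a1 a2
    show (nw C c B σ z).w e * C.pt _ _ = C.pt _ _
    rw [b1, b2, ← b3]
    simp only [nw]
    group
  · intro d i h1 h2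
    refine G.adj d i ?_ h2
    simp only [nw] at h1
    split_ifs at h1 with h3
    · subst h3; omega
    · exact h1
  · intro d
    simp only [nw]
    split_ifs with h3
    · subst h3; exact D.z_le_hi G
    · exact G.lh d
  · simp only [nw, if_neg hc0]
    exact G.lo0
  · obtain ⟨l, hl⟩ := G.gam
    obtain ⟨m, hm, _⟩ := D.sim G (Q := Unit) (fun _ => 1) hl
    refine ⟨m, ?_⟩
    rw [mu_of_not (fun h => hc0 h.1), mu_of_not (fun h => hc0 h.1)] at hm
    exact hm

lemma val_eq (D : Dat C c B σ B' σ' z) {Q : Type} [Group Q] (φ : FreeGroup α →* Q) (t : V → Q)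
    (e : E) :
    (nw C c B σ z).val φ t e = uu C c B σ z (lv (C.val φ t) (B, !σ)) e true * C.val φ t e *
      (uu C c B σ z (lv (C.val φ t) (B, !σ)) e false)⁻¹ := by
  have h : ∀ s, t ((nw C c B σ z).cp e s) * φ (uu C c B σ z (lv C.w (B, !σ)) e s) =
      uu C c B σ z (lv (C.val φ t) (B, !σ)) e s * t (C.cp e s) := by
    intro s
    by_cases hT : T C c B σ z e s
    · rw [cp_T hT, uu_T _ hT, uu_T _ hT, lv_val, Bool.not_not, D.cB, hT.2.1]
      group
    · rw [cp_nT hT, uu_nT _ hT, uu_nT _ hT]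
      simp
  have h1 := h true
  have h2 := h false
  have hw : (nw C c B σ z).w e = uu C c B σ z (lv C.w (B, !σ)) e true * C.w e *
    (uu C c B σ z (lv C.w (B, !σ)) e false)⁻¹ := rfl
  have e1 : (nw C c B σ z).val φ t e =
      (t ((nw C c B σ z).cp e true) * φ (uu C c B σ z (lv C.w (B, !σ)) e true)) * φ (C.w e) *
        (t ((nw C c B σ z).cp e false) * φ (uu C c B σ z (lv C.w (B, !σ)) e false))⁻¹ := by
    unfold Cfg.val
    rw [hw, map_mul, map_mul, map_inv]
    group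
  rw [e1, h1, h2]
  unfold Cfg.val
  group

lemma ex (D : Dat C c B σ B' σ' z) (G : C.Geo V0 L) (h : C.Ex) : (nw C c B σ z).Ex := by
  intro Q _ f hf
  have hk : C.Kills (tw C c B σ z f) := by
    intro p l hl
    obtain ⟨m, h3, h4⟩ := D.sim G f hl
    rw [hf _ _ h3] at h4
    have : ev (tw C c B σ z f) l = (up c z (lv f (B, !σ)) p)⁻¹ *
        (up c z (lv f (B, !σ)) p * ev (tw C c B σ z f) l * (up c z (lv f (B, !σ)) p)⁻¹) *
          up c z (lv f (B, !σ)) p := by group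
    rw [this, ← h4]
    group
  obtain ⟨φ, t, ht⟩ := h Q _ hk
  have h1 : tw C c B σ z f = C.val φ t := funext ht
  refine ⟨φ, t, fun e => ?_⟩
  rw [D.val_eq, ← h1, D.lv_tw_B G]
  unfold tw
  group

lemma gen (D : Dat C c B σ B' σ' z) (G : C.Geo V0 L) (h : C.Gen) : (nw C c B σ z).Gen := by
  intro Q _ H φ t hval ht0
  have h1 : C.val φ t B ∈ H := by
    have := hval B
    rw [D.val_eq, uu_nT _ (D.nT_B G _), uu_nT _ (D.nT_B G _)] at this
    simpa using this
  have h2 : lv (C.val φ t) (B, !σ) ∈ H := by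
    cases σ
    · exact h1
    · exact H.inv_mem h1
  have h3 : ∀ e s, uu C c B σ z (lv (C.val φ t) (B, !σ)) e s ∈ H := by
    intro e s
    unfold uu
    split_ifs
    · exact h2
    · exact H.one_mem
  refine h Q H φ t (fun e => ?_) ht0
  have h4 := hval e
  rw [D.val_eq] at h4
  have := H.mul_mem (H.mul_mem (H.inv_mem (h3 e true)) h4) (h3 e false)
  simpa [mul_assoc] using this

/-- squares of a moved end lie under the carrier -/
lemma T_sq (D : Dat C c B σ B' σ' z) (G : C.Geo V0 L) {e : E} {s : Bool}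
    (hT : T C c B σ z e s) {k : ℤ} (h1 : C.k1 e ≤ k) (h2 : k < C.k2 e) :
    ∃ k', C.k1 B ≤ k' ∧ k' < C.k2 B ∧ C.cpos B σ k' = C.cpos e s k ∧ C.cpos B σ k' < 2 * z ∧
      (nw C c B σ z).cpos e s k = C.cpos B (!σ) k' := by
  have r1 := D.T_rng G hT h1 h2.le
  have r2 := D.T_rng G hT (k := k + 1) (by omega) (by omega)
  have := D.hz
  have := D.hW
  have hi : ∃ i, C.lo c ≤ i ∧ i < z ∧ C.cpos e s k = 2 * i + 1 := by
    rcases G.pos_cases hT.1 s with ⟨-, q1, q2⟩ | ⟨-, q1, q2⟩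
    · rw [q1] at r1 r2
      exact ⟨C.st e s + k, by omega, by omega, by rw [q2]; ring⟩
    · rw [q1] at r1 r2
      exact ⟨C.st e s - (k + 1), by omega, by omega, by rw [q2]; ring⟩
  obtain ⟨i, i1, i2, i3⟩ := hi
  rw [cpos_T hT, i3]
  rcases D.posB with ⟨q0, q1, -, q2, -⟩ | ⟨q0, q1, -, q2, -⟩
  · refine ⟨i - C.st B σ, by omega, by omega, by rw [q2]; ring, by rw [q2]; omega, ?_⟩
    rw [q0]
    unfold Cfg.cpos
    ring
  · refine ⟨C.st B σ - i - 1, by omega, by omega, by rw [q2]; ring, by rw [q2]; omega, ?_⟩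
    rw [q0]
    unfold Cfg.cpos
    ring

lemma tr (D : Dat C c B σ B' σ' z) (G : C.Geo V0 L) (h : C.Tr) : (nw C c B σ z).Tr := by
  classical
  intro q
  obtain ⟨g, hg⟩ := h (fun e k => if e = B ∧ C.cpos B σ k < 2 * z then 0 else q e k)
  have key : ∀ e s k, C.k1 e ≤ k → k < C.k2 e →
      g ((nw C c B σ z).cp e s) ((nw C c B σ z).cpos e s k) = g (C.cp e s) (C.cpos e s k) := by
    intro e s k h1 h2
    by_cases hT : T C c B σ z e s
    · obtain ⟨k', a1, a2, a3, a4, a5⟩ := D.T_sq G hT h1 h2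
      have b1 := hg B D.hB k' a1 a2
      simp only [a4, and_self, if_true] at b1
      rw [cp_T hT, a5, hT.2.1, ← a3, ← D.cB]
      cases σ
      · simp only [Bool.not_false]
        linarith
      · simp only [Bool.not_true]
        linarith
    · rw [cp_nT hT, cpos_nT hT]
  refine ⟨g, fun e he k h1 h2 => ?_⟩
  by_cases hb : e = B
  · subst hb
    obtain ⟨a1, a2, a3⟩ := (D.sqB k).1 ⟨h1, h2⟩
    rw [key e true k a1 a2, key e false k a1 a2, hg e he k a1 a2]
    rw [if_neg]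
    rintro ⟨-, h3⟩
    omega
  · rw [k1_ne hb] at h1
    rw [k2_ne hb] at h2
    rw [key e true k h1 h2, key e false k h1 h2, hg e he k h1 h2]
    rw [if_neg]
    exact fun h3 => hb h3.1

lemma inv (D : Dat C c B σ B' σ' z) (h : C.Inv V0 L) : (nw C c B σ z).Inv V0 L :=
  ⟨D.geo h.geo, D.ex h.geo h.ex, D.gen h.geo h.gen, D.tr h.geo h.tr⟩

end Dat

end Pool.Agent.H354Z.Eat
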